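import Pool.Agent.Y663.Tr
import Pool.Agent.K3h4.AN.Es
import Pool.Agent.K3h4.DS.D2

/-!
# Dimension two, uniform disorder: the density of states near the band edges

For the Anderson model `Δ_ω = -Δ + ω` on `ℤ²` with iid `ω_j` uniform on `[-c, c]` and small `c` there
is an energy `E_* = -(c²/(6π)) log (1/c) + O(c² log^{3/4} (1/c))` such that the integrated density of
states `N` satisfies, up to constants, `N(E_* + κ) ≍ κ + c²` for `0 ≤ κ ≤ 1` and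
`N(E_* - κ) ≍ c² exp(-Θ(κ/c²))` for `0 ≤ κ ≤ c / K`, and symmetrically at the upper edge `8 - E_*`.
-/

set_option autoImplicit false

open scoped BigOperators ENNReal
open MeasureTheory

namespace Pool.Agent.Results.MP_562b47_mp.EdgeDensityTwo

/-- the uniform law on `[-c, c]` -/
noncomputable def unif (c : ℝ) : Measure ℝ :=
  ENNReal.ofReal (1 / (2 * c)) • volume.restrict (Set.Icc (-c) c)

/-- `(Δ_ω u)(j) = -∑_{|n|=1} (u(j+n) - u(j)) + ω_j u(j)` -/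
noncomputable def H {d : ℕ} (ω : (Fin d → ℤ) → ℝ) (u : (Fin d → ℤ) → ℂ) (j : Fin d → ℤ) : ℂ :=
  -∑ i : Fin d, ((u (j + Pi.single i 1) - u j) + (u (j - Pi.single i 1) - u j)) + (ω j : ℂ) * u j

/-- `ν` is the density of states measure of `Δ_ω`, the `ω_j` independent and uniform on `[-c, c]`:
the finite measure on `ℝ` whose moments are `𝔼 ⟨δ₀, Δ_ωⁿ δ₀⟩` -/
def IsDensityOfStates (d : ℕ) (c : ℝ) (ν : Measure ℝ) : Prop :=
  IsFiniteMeasure ν ∧ ∀ n : ℕ, Integrable (fun E : ℝ => E ^ n) ν ∧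
    ((∫ E, E ^ n ∂ν : ℝ) : ℂ) = ∫ ω : (Fin d → ℤ) → ℝ, (H ω)^[n] (Pi.single 0 1) 0
      ∂(Measure.infinitePi fun _ : Fin d → ℤ => unif c)

/-! ### Translation -/

/-- the mean and the variance of the uniform law on `[-1, 1]` -/
theorem unif_moments : Pool.Agent.K3h4.AN.Sa.mn (Pool.Agent.Y663.Tr.unif 1) = 0 ∧
    Pool.Agent.K3h4.AN.Sa.vr (Pool.Agent.Y663.Tr.unif 1) = 1 / 3 := by
  have hph : ∀ t ∈ Set.Icc (-1 : ℝ) 1, Pool.Agent.K3h4.AN.Sa.ph t = t := by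
    intro t ht
    unfold Pool.Agent.K3h4.AN.Sa.ph
    rw [min_eq_right ht.2, max_eq_right ht.1]
  have h1 : Pool.Agent.K3h4.AN.Sa.mn (Pool.Agent.Y663.Tr.unif 1) = 0 := by
    unfold Pool.Agent.K3h4.AN.Sa.mn Pool.Agent.Y663.Tr.unif
    rw [integral_smul_measure, setIntegral_congr_fun measurableSet_Icc hph,
      integral_Icc_eq_integral_Ioc, ← intervalIntegral.integral_of_le (by norm_num), integral_id]
    norm_num
  refine ⟨h1, ?_⟩
  unfold Pool.Agent.K3h4.AN.Sa.vr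
  rw [h1]
  simp only [sub_zero]
  unfold Pool.Agent.Y663.Tr.unif
  rw [integral_smul_measure, setIntegral_congr_fun measurableSet_Icc (g := fun t : ℝ => t ^ 2)
      (fun t ht => by rw [hph t ht]),
    integral_Icc_eq_integral_Ioc, ← intervalIntegral.integral_of_le (by norm_num), integral_pow]
  norm_num

theorem unif_dens : Pool.Agent.Y663.Tr.unif 1 ≤ ENNReal.ofReal 1 • (volume : Measure ℝ) := by
  intro s
  unfold Pool.Agent.Y663.Tr.unif
  simp only [Measure.smul_apply, smul_eq_mul]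
  refine mul_le_mul' (ENNReal.ofReal_le_ofReal (by norm_num)) ?_
  exact Measure.restrict_apply_le _ _

theorem H_eq {d : ℕ} (ω : (Fin d → ℤ) → ℝ) : H ω = Pool.Agent.K3h4.AN.Sp.H 1 ω := by
  funext u x
  unfold H Pool.Agent.K3h4.AN.Sp.H
  rw [one_mul]

open Pool.Agent.H541R3.AND.Trans in
theorem mo_scale {d : ℕ} (c : ℝ) (ω : (Fin d → ℤ) → ℝ) (n : ℕ) :
    Pool.Agent.K3h4.DS.Ex.mo 1 (fun x => c * ω x) n = Pool.Agent.K3h4.DS.Ex.mo c ω n := by
  have e : HZ (d := d) 1 (fun x => c * ω x) = HZ c ω := by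
    funext f x
    unfold HZ
    rw [one_mul]
  unfold Pool.Agent.K3h4.DS.Ex.mo
  rw [e]

theorem dos_iff {d : ℕ} {c : ℝ} (hc : 0 < c) {ν : Measure ℝ} :
    IsDensityOfStates d c ν ↔
      Pool.Agent.K3h4.DS.Mo.Dos d (Pool.Agent.Y663.Tr.unif 1) c ν := by
  have hP1 : IsProbabilityMeasure (Pool.Agent.Y663.Tr.unif 1) :=
    Pool.Agent.Y663.Tr.unif_prob 1 one_pos
  have hlaw : (Measure.infinitePi fun _ : Fin d → ℤ => Pool.Agent.Y663.Tr.unif 1).map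
      (fun ω x => c * ω x) = Measure.infinitePi fun _ : Fin d → ℤ => unif c :=
    Pool.Agent.Y663.Tr.law_map d (Pool.Agent.Y663.Tr.unif 1) (unif c) (fun t => c * t)
      (by fun_prop) (Pool.Agent.Y663.Tr.unif_scale c hc)
  have e : ∀ (n : ℕ), ∫ ω : (Fin d → ℤ) → ℝ, (H ω)^[n] (Pi.single 0 1) 0
      ∂(Measure.infinitePi fun _ : Fin d → ℤ => unif c) =
      ((∫ ω, Pool.Agent.K3h4.DS.Ex.mo c ω n
        ∂(Measure.infinitePi fun _ : Fin d → ℤ => Pool.Agent.Y663.Tr.unif 1) : ℝ) : ℂ) := by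
    intro n
    have e1 : (fun ω : (Fin d → ℤ) → ℝ => (H ω)^[n] (Pi.single 0 1) 0) =
        fun ω => ((Pool.Agent.K3h4.DS.Ex.mo 1 ω n : ℝ) : ℂ) := by
      funext ω
      rw [H_eq, Pool.Agent.K3h4.AN.Sp.iter_real]
      rfl
    rw [e1, integral_complex_ofReal, ← hlaw]
    have hm : Measurable (fun (ω : (Fin d → ℤ) → ℝ) x => c * ω x) := by fun_prop
    rw [integral_map hm.aemeasurable
      (Pool.Agent.K3h4.DS.Ex.mo_meas (d := d) 1 n).aestronglyMeasurable]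
    simp only [mo_scale]
  unfold IsDensityOfStates Pool.Agent.K3h4.DS.Mo.Dos
  simp only [e]
  constructor
  · rintro ⟨h1, h2⟩
    exact ⟨h1, fun n => ⟨(h2 n).1, Complex.ofReal_injective (h2 n).2⟩⟩
  · rintro ⟨h1, h2⟩
    exact ⟨h1, fun n => ⟨(h2 n).1, congrArg _ (h2 n).2⟩⟩

/-- **The density of states in two dimensions at weak uniform disorder, near both edges.**
There is `K` such that for every `0 < c ≤ 1/K` there is an energy `Es` with
`|Es + (c²/(6π)) log (1/c)| ≤ K c² log^{3/4} (1/c)` for which the density of states measure `ν`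
(which exists) satisfies:

* `(κ + c²) / K ≤ ν(-∞, Es + κ] ≤ K (κ + c²)` for `0 ≤ κ ≤ 1`;
* `ν(-∞, Es - κ] ≤ K c² exp(-κ / (K c²))` for `0 ≤ κ ≤ 1`;
* `c² exp(-K κ / c²) / K ≤ ν(-∞, Es - κ]` for `0 ≤ κ ≤ c / K`;
* the same three estimates for `ν[8 - Es - κ, ∞)` and `ν[8 - Es + κ, ∞)`. -/
theorem result :
    ∃ K : ℝ, 1 ≤ K ∧ ∀ c : ℝ, 0 < c → K * c ≤ 1 → ∃ Es : ℝ,
      |Es + c ^ 2 / (6 * Real.pi) * Real.log (1 / c)| ≤
        K * c ^ 2 * Real.log (1 / c) ^ ((3 : ℝ) / 4) ∧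
      (∃ ν, IsDensityOfStates 2 c ν) ∧
        ∀ ν : Measure ℝ, IsDensityOfStates 2 c ν →
          -- inside the band
          (∀ κ : ℝ, 0 ≤ κ → κ ≤ 1 →
            (κ + c ^ 2) / K ≤ ν.real (Set.Iic (Es + κ)) ∧
            ν.real (Set.Iic (Es + κ)) ≤ K * (κ + c ^ 2) ∧
            (κ + c ^ 2) / K ≤ ν.real (Set.Ici (8 - Es - κ)) ∧
            ν.real (Set.Ici (8 - Es - κ)) ≤ K * (κ + c ^ 2)) ∧
          -- outside the band, upper bound
          (∀ κ : ℝ, 0 ≤ κ → κ ≤ 1 →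
            ν.real (Set.Iic (Es - κ)) ≤ K * c ^ 2 * Real.exp (-(κ / (K * c ^ 2))) ∧
            ν.real (Set.Ici (8 - Es + κ)) ≤ K * c ^ 2 * Real.exp (-(κ / (K * c ^ 2)))) ∧
          -- outside the band, lower bound
          ∀ κ : ℝ, 0 ≤ κ → K * κ ≤ c →
            c ^ 2 * Real.exp (-(K * κ / c ^ 2)) / K ≤ ν.real (Set.Iic (Es - κ)) ∧
            c ^ 2 * Real.exp (-(K * κ / c ^ 2)) / K ≤ ν.real (Set.Ici (8 - Es + κ)) := by
  obtain ⟨A, hA, HA⟩ := Pool.Agent.K3h4.DS.D2.side2 1 one_pos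
  obtain ⟨C1, hC1, HE⟩ := Pool.Agent.K3h4.AN.Es.es2 A hA
  have hA0 : 0 < A := by linarith
  obtain ⟨K, hK⟩ : ∃ z : ℝ, z = 2 * A + C1 := ⟨_, rfl⟩
  have hK2A : 2 * A ≤ K := by rw [hK]; linarith
  have hKA : A ≤ K := by linarith
  have hKC1 : C1 ≤ K := by rw [hK]; linarith
  have hK0 : 0 < K := by linarith
  refine ⟨K, by linarith, ?_⟩
  intro c hc hcK
  have hP1 : IsProbabilityMeasure (Pool.Agent.Y663.Tr.unif 1) :=
    Pool.Agent.Y663.Tr.unif_prob 1 one_pos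
  have hcA : A * c ≤ 1 := le_trans (by gcongr) hcK
  have hcC1 : C1 * c ≤ 1 := le_trans (by gcongr) hcK
  have hc1 : c ≤ 1 := by
    have : 1 * c ≤ A * c := by gcongr
    linarith
  obtain ⟨Es, hEs, hfl, Hm⟩ := HA (Pool.Agent.Y663.Tr.unif 1) Pool.Agent.Y663.Tr.unif_supp
    unif_dens c hc hcA
  refine ⟨Es, ?_, ?_, ?_⟩
  · have hasym := HE (Pool.Agent.Y663.Tr.unif 1) Pool.Agent.Y663.Tr.unif_supp c hc hcC1 1 Es le_rfl
      (by
        intro L _ hL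
        have hL0 : (0 : ℝ) < L := Pool.Agent.H4R2.AE.Core.L_pos (L := L)
        have h1 : c * L ≤ 1 := by
          have h2 : 1 * (c * (L : ℝ)) ≤ A * (c * L) := by gcongr
          linarith
        have h3 : A * (c ^ 2 * (L : ℝ) ^ 2) ≤ 1 := by
          calc A * (c ^ 2 * (L : ℝ) ^ 2) = (A * (c * L)) * (c * L) := by ring
            _ ≤ 1 * 1 := by gcongr
            _ = 1 := one_mul _
        obtain ⟨G, g1, g2, g3⟩ := hfl L h3
        rw [mul_pow]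
        exact ⟨G, g1, g2, g3⟩)
    obtain ⟨hmn, hvr⟩ := unif_moments
    have hlogc : 0 ≤ Real.log (1 / c) := Real.log_nonneg (by rw [le_div_iff₀ hc]; linarith)
    rw [hmn, hvr] at hasym
    have e : Es - (c * 0 - 1 / 3 / (2 * Real.pi) * c ^ 2 * Real.log (1 / c)) =
        Es + c ^ 2 / (6 * Real.pi) * Real.log (1 / c) := by
      have := Real.pi_pos
      field_simp
      ring
    rw [e] at hasym
    refine hasym.trans ?_
    gcongr
  · obtain ⟨ν, h1, -, h2⟩ := Pool.Agent.K3h4.DS.Ex.ex_dos (d := 2) (Pool.Agent.Y663.Tr.unif 1)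
      Pool.Agent.Y663.Tr.unif_supp c hc.le hc1
    exact ⟨ν, (dos_iff hc).2 ⟨inferInstance, h2⟩⟩
  intro ν hν
  have hν' := (dos_iff hc).1 hν
  have hfin := hν'.1
  obtain ⟨m1, m2, m3⟩ := Hm ν hν'
  have hflip := Pool.Agent.K3h4.DS.D3.dos_flip Pool.Agent.Y663.Tr.unif_supp hc.le hc1 hν'
  rw [Pool.Agent.Y663.Tr.unif_neg 1] at hflip
  obtain ⟨p1, p2, p3⟩ := Hm _ hflip
  have hmeas : Measurable fun E : ℝ => 4 * ((2 : ℕ) : ℝ) - E := by fun_prop
  have hrefl : ∀ a : ℝ, (ν.map fun E : ℝ => 4 * ((2 : ℕ) : ℝ) - E).real (Set.Iic a) =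
      ν.real (Set.Ici (8 - a)) := by
    intro a
    rw [map_measureReal_apply hmeas measurableSet_Iic]
    congr 1
    ext E
    simp only [Set.mem_preimage, Set.mem_Iic, Set.mem_Ici]
    push_cast
    constructor <;> intro h <;> linarith
  have pw1 : ∀ κ : ℝ, 0 ≤ κ → κ + c ^ 2 ≤ (Real.sqrt κ + c) ^ 2 := by
    intro κ hκ
    have h2 : Real.sqrt κ ^ 2 = κ := Real.sq_sqrt hκ
    have h3 : 0 ≤ Real.sqrt κ * c := by positivity
    have h4 : (Real.sqrt κ + c) ^ 2 = Real.sqrt κ ^ 2 + c ^ 2 + 2 * (Real.sqrt κ * c) := by ring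
    linarith
  have pw2 : ∀ κ : ℝ, 0 ≤ κ → (Real.sqrt κ + c) ^ 2 ≤ 2 * (κ + c ^ 2) := by
    intro κ hκ
    have h2 : Real.sqrt κ ^ 2 = κ := Real.sq_sqrt hκ
    have h3 := sq_nonneg (Real.sqrt κ - c)
    nlinarith
  refine ⟨fun κ hκ hκ1 => ?_, fun κ hκ hκ1 => ?_, fun κ hκ hκl => ?_⟩
  · have hs0 : 0 ≤ Real.sqrt κ := Real.sqrt_nonneg κ
    have hs1 : Real.sqrt κ ≤ 1 := Real.sqrt_le_one.2 hκ1
    have hss : Real.sqrt κ ^ 2 = κ := Real.sq_sqrt hκ
    have q1 := m1 (Real.sqrt κ) hs0 hs1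
    have q2 := p1 (Real.sqrt κ) hs0 hs1
    rw [hss] at q1 q2
    rw [hrefl, show (8 : ℝ) - (Es + κ) = 8 - Es - κ by ring] at q2
    have l1 : (κ + c ^ 2) / K ≤ (Real.sqrt κ + c) ^ 2 / A := by
      have h1 := pw1 κ hκ
      have h2 : 0 ≤ (Real.sqrt κ + c) ^ 2 := by positivity
      exact div_le_div₀ h2 h1 hA0 hKA
    have l2 : A * (Real.sqrt κ + c) ^ 2 ≤ K * (κ + c ^ 2) := by
      have h1 := pw2 κ hκ
      calc A * (Real.sqrt κ + c) ^ 2 ≤ A * (2 * (κ + c ^ 2)) := by gcongr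
        _ = (2 * A) * (κ + c ^ 2) := by ring
        _ ≤ K * (κ + c ^ 2) := by gcongr
    exact ⟨l1.trans q1.1, q1.2.trans l2, l1.trans q2.1, q2.2.trans l2⟩
  · have hs0 : 0 ≤ Real.sqrt κ := Real.sqrt_nonneg κ
    have hs1 : Real.sqrt κ ≤ 1 := Real.sqrt_le_one.2 hκ1
    have hss : Real.sqrt κ ^ 2 = κ := Real.sq_sqrt hκ
    have q1 := m2 (Real.sqrt κ) hs0 hs1
    have q2 := p2 (Real.sqrt κ) hs0 hs1
    rw [hss] at q1 q2
    rw [hrefl, show (8 : ℝ) - (Es - κ) = 8 - Es + κ by ring] at q2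
    have l1 : A * c ^ 2 * Real.exp (-(κ / (A * c ^ 2))) ≤
        K * c ^ 2 * Real.exp (-(κ / (K * c ^ 2))) := by
      have h1 : Real.exp (-(κ / (A * c ^ 2))) ≤ Real.exp (-(κ / (K * c ^ 2))) := by
        refine Real.exp_le_exp.2 (neg_le_neg ?_)
        gcongr
      gcongr
    exact ⟨q1.trans l1, q2.trans l1⟩
  · have hs0 : 0 ≤ Real.sqrt κ := Real.sqrt_nonneg κ
    have hss : Real.sqrt κ ^ 2 = κ := Real.sq_sqrt hκ
    have hAκ : A * Real.sqrt κ ^ 2 ≤ c := by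
      rw [hss]
      exact le_trans (by gcongr) hκl
    have q1 := m3 (Real.sqrt κ) hs0 hAκ
    have q2 := p3 (Real.sqrt κ) hs0 hAκ
    rw [hss] at q1 q2
    rw [hrefl, show (8 : ℝ) - (Es - κ) = 8 - Es + κ by ring] at q2
    have l1 : c ^ 2 * Real.exp (-(K * κ / c ^ 2)) / K ≤
        c ^ 2 * Real.exp (-(A * (κ / c ^ 2))) / A := by
      have h1 : Real.exp (-(K * κ / c ^ 2)) ≤ Real.exp (-(A * (κ / c ^ 2))) := by
        refine Real.exp_le_exp.2 (neg_le_neg ?_)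
        rw [← mul_div_assoc]
        gcongr
      gcongr
    exact ⟨l1.trans q1, l1.trans q2⟩

end Pool.Agent.Results.MP_562b47_mp.EdgeDensityTwo
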