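import Pool.Agent.K3h27.EF.Main
import Pool.Agent.Results.MP_562b47_mp.LocalizationToEdge

/-!
# Weak disorder, `d ≥ 4`: both effective band edges to all orders, explicitly to the fourth order

`H = -Δ + λ V_ω` on `ℤ^d`, `d ≥ 4`, with iid `ω_x` of any law with a bounded density and compact
support (mean `m`, central moments `v = c₂`, `c₃`, `c₄`), and small `λ`.  The effective edges between
which the extended states must live have complete asymptotic expansions in powers of `λ`: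
`Em(λ) = m λ - v G λ² + c₃ G² λ³ - (v² M + (c₄ - 3 v²) G³) λ⁴ + …`,
`Ep(λ) = 4d + m λ + v G λ² + c₃ G² λ³ + (v² M + (c₄ - 3 v²) G³) λ⁴ + …`,
with `G` the Green function of the lattice Laplacian at the origin and `M` the sunset integral.  In
general `Em ~ ∑ a_n λ^n` and `Ep ~ 4d - ∑ a_n (-λ)^n` with the same coefficients `a_n`, the limits of
the mean Taylor coefficients of the lowest eigenvalue of `-Δ + λ V` on large tori.  For `ω_x` uniform
on `[-b, b]` (the model of the problem is `λ ω`, uniform on `[-λ b, λ b]`):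
`Em(λ) = -(G/3) (λ b)² - (M/9 - 2 G³/15) (λ b)⁴ + O(λ⁵)`.

Up to errors `κ ≥ exp(-k λ^{-d/2})` (`exp(-k/λ)` if `d = 4`) the spectrum outside `[Em, Ep]` is
localized, on tori the ground states at both ends are extended with energy near `Em` and `Ep`, and
states of energy `≤ Em + κ` or `≥ Ep - κ` put mass at most `K κ^{d/2}` on each site outside an
exponentially sparse set.
-/

set_option autoImplicit false

open scoped BigOperators ENNReal Topology
open MeasureTheory Filter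

namespace Pool.Agent.Results.MP_562b47_mp.EdgeFourthOrder

open Pool.Agent.Results.MP_28b024_mp.MobilityEdgeScale
  (H SqSummable Localized IsSpectralMeasureAt T HT ExtendedGroundState sc)
open Pool.Agent.Results.MP_562b47_mp.LocalizationToEdge (unif)

/-- the symbol of the lattice Laplacian -/
noncomputable def symbol {d : ℕ} (x : Fin d → ℝ) : ℝ :=
  ∑ i, (2 - 2 * Real.cos (2 * Real.pi * x i))

/-- the unit cube -/
def cube (d : ℕ) : Set (Fin d → ℝ) := Set.pi Set.univ fun _ : Fin d => Set.Icc (0 : ℝ) 1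

/-- the Green function of the lattice Laplacian at the origin, `∫ dx / symbol(x)` -/
noncomputable def G (d : ℕ) : ℝ := ∫ x in cube d, (symbol x)⁻¹

/-- the sunset integral `∫∫ dx dy / (symbol(x) symbol(y) symbol(x+y))` -/
noncomputable def M (d : ℕ) : ℝ :=
  ∫ x in cube d, ∫ y in cube d, (symbol x * symbol y * symbol (x + y))⁻¹

/-- the mean of the law `μ` -/
noncomputable def mean (μ : Measure ℝ) : ℝ := ∫ t, t ∂μ

/-- the central moments of the law `μ` -/
noncomputable def cm (μ : Measure ℝ) (n : ℕ) : ℝ := ∫ t, (t - mean μ) ^ n ∂μ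

/-- `e n` are the Taylor coefficients at `λ = 0` of the lowest eigenvalue of `-Δ + λ V` on the
torus, that is, the eigenvalue with a positive eigenvector -/
def IsGroundTaylor {d L : ℕ} [NeZero L] (V : T d L → ℝ) (e : ℕ → ℝ) : Prop :=
  ∀ N : ℕ, ∃ C δ : ℝ, 0 < δ ∧ ∀ lam : ℝ, 0 < lam → lam ≤ δ → ∀ (E : ℝ) (ψ : T d L → ℝ),
    (∀ x, 0 < ψ x) → (∀ x, HT lam V ψ x = E * ψ x) →
      |E - ∑ n ∈ Finset.range (N + 1), e n * lam ^ n| ≤ C * lam ^ (N + 1)

theorem unif_int (b : ℝ) (hb : 0 < b) (n : ℕ) :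
    ∫ t, t ^ n ∂(unif b) = 1 / (2 * b) * ∫ t in (-b)..b, t ^ n := by
  unfold unif
  rw [integral_smul_measure, intervalIntegral.integral_of_le (by linarith),
    ← integral_Icc_eq_integral_Ioc, ENNReal.toReal_ofReal (by positivity), smul_eq_mul]

theorem unif_mean (b : ℝ) (hb : 0 < b) : mean (unif b) = 0 := by
  have h := unif_int b hb 1
  simp only [pow_one] at h
  unfold mean
  rw [h, integral_id]
  ring

theorem unif_cm (b : ℝ) (hb : 0 < b) (n : ℕ) :
    cm (unif b) n = 1 / (2 * b) * ((b ^ (n + 1) - (-b) ^ (n + 1)) / (n + 1)) := by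
  unfold cm
  rw [unif_mean b hb]
  simp only [sub_zero]
  rw [unif_int b hb n, integral_pow]

theorem unif_supp (b : ℝ) : unif b (Set.Icc (-b) b)ᶜ = 0 := by
  unfold unif
  rw [Measure.smul_apply, Measure.restrict_apply measurableSet_Icc.compl]
  simp

theorem unif_dens (b : ℝ) : unif b ≤ ENNReal.ofReal (1 / (2 * b)) • (volume : Measure ℝ) := by
  unfold unif
  intro s
  rw [Measure.smul_apply, Measure.smul_apply]
  exact mul_le_mul_right (Measure.restrict_apply_le _ _) _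

/-- **Theorem.** `d ≥ 4`; `μ` is the law of the `ω_x`, supported in `[-b, b]`, with density at most
`D`; `sc d lam` is `λ^{-d/2}` (`1/λ` if `d = 4`). -/
theorem result (d : ℕ) (hd : 4 ≤ d) (b : ℝ) (hb : 0 < b) :
    -- the sunset integral converges and is positive
    (IntegrableOn (fun z : (Fin d → ℝ) × (Fin d → ℝ) =>
      (symbol z.1 * symbol z.2 * symbol (z.1 + z.2))⁻¹) (cube d ×ˢ cube d) ∧ 0 < M d) ∧
    ∃ (e : (L : ℕ) → (T d (L + 1) → ℝ) → ℕ → ℝ) (a : Measure ℝ → ℕ → ℝ),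
    -- the coefficients: limits of the mean Taylor coefficients of the ground state energy on tori
    (∀ L V, IsGroundTaylor V (e L V)) ∧
    (∀ (μ : Measure ℝ) [IsProbabilityMeasure μ], μ (Set.Icc (-b) b)ᶜ = 0 →
      (∃ D : ℝ, μ ≤ ENNReal.ofReal D • (volume : Measure ℝ)) →
      (∀ n, (∀ L, Integrable (fun V => e L V n) (Measure.pi fun _ : T d (L + 1) => μ)) ∧
        Tendsto (fun L : ℕ => ∫ V, e L V n ∂(Measure.pi fun _ : T d (L + 1) => μ)) atTop
          (𝓝 (a μ n))) ∧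
      a μ 0 = 0 ∧ a μ 1 = mean μ ∧ a μ 2 = -(cm μ 2 * G d) ∧ a μ 3 = cm μ 3 * G d ^ 2 ∧
      a μ 4 = -(cm μ 2 ^ 2 * M d + (cm μ 4 - 3 * cm μ 2 ^ 2) * G d ^ 3)) ∧
    -- the uniform law on `[-b, b]`
    (IsProbabilityMeasure (unif b) ∧ unif b (Set.Icc (-b) b)ᶜ = 0 ∧
      unif b ≤ ENNReal.ofReal (1 / (2 * b)) • (volume : Measure ℝ) ∧
      a (unif b) 1 = 0 ∧ a (unif b) 2 = -(G d / 3 * b ^ 2) ∧ a (unif b) 3 = 0 ∧
      a (unif b) 4 = -((M d / 9 - 2 / 15 * G d ^ 3) * b ^ 4)) ∧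
    ∀ D : ℝ, 0 < D → ∀ η : ℝ, 0 < η → η ≤ 1 → ∃ k K : ℝ, 0 < k ∧ 0 < K ∧
      ∀ (μ : Measure ℝ) [IsProbabilityMeasure μ],
      μ (Set.Icc (-b) b)ᶜ = 0 → μ ≤ ENNReal.ofReal D • (volume : Measure ℝ) →
      ∃ Em Ep : ℝ → ℝ,
      -- the asymptotic expansions of the two effective edges
      (∀ N : ℕ, ∃ C : ℝ, ∀ lam : ℝ, 0 < lam → lam ≤ k →
        |Em lam - ∑ n ∈ Finset.range (N + 1), a μ n * lam ^ n| ≤ C * lam ^ (N + 1) ∧
        |Ep lam - (4 * d - ∑ n ∈ Finset.range (N + 1), a μ n * (-lam) ^ n)| ≤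
          C * lam ^ (N + 1)) ∧
      ∀ lam : ℝ, 0 < lam → lam ≤ k →
      -- (1) on tori the ground state is extended, its energy is `Em + O(1/L²)`
      (∀ (L : ℕ) [NeZero L], (L : ℝ) ≤ Real.exp (k * sc d lam) →
        ∃ A : Set (T d L → ℝ), MeasurableSet A ∧
          1 - Real.exp (-(k * sc d lam)) ≤ (Measure.pi fun _ : T d L => μ).real A ∧
          ∀ V ∈ A, ExtendedGroundState lam η (K / (L : ℝ) ^ 2) (Em lam) V) ∧
      -- (2) the same for the law of `-ω` and the energy `4 d - Ep`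
      (∀ (L : ℕ) [NeZero L], (L : ℝ) ≤ Real.exp (k * sc d lam) →
        ∃ A : Set (T d L → ℝ), MeasurableSet A ∧
          1 - Real.exp (-(k * sc d lam)) ≤
            (Measure.pi fun _ : T d L => μ.map fun t => -t).real A ∧
          ∀ V ∈ A, ExtendedGroundState lam η (K / (L : ℝ) ^ 2) (4 * d - Ep lam) V) ∧
      -- (3) exponential localization outside `[Em - κ, Ep + κ]`
      (∀ κ : ℝ, Real.exp (-(k * sc d lam)) ≤ κ → κ ≤ 1 →
        ∀ᵐ ω ∂(Measure.infinitePi fun _ : Fin d → ℤ => μ),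
          Localized (H lam ω) {E | E ≤ Em lam - κ ∨ Ep lam + κ ≤ E}
            (k * Real.sqrt κ / Real.log (2 / (κ * lam)))) ∧
      -- (4) states near the edges are spread out, away from a sparse set of sites
      ∃ Bad : ((Fin d → ℤ) → ℝ) → Set (Fin d → ℤ),
        (∀ x, MeasurableSet {ω | x ∈ Bad ω}) ∧
        (∀ ω y x, x ∈ Bad (fun z => ω (z + y)) ↔ x + y ∈ Bad ω) ∧
        (∀ x, (Measure.infinitePi fun _ : Fin d → ℤ => μ).real {ω | x ∈ Bad ω} ≤
          Real.exp (-(k * sc d lam))) ∧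
        ∀ ω x, x ∉ Bad ω → ∀ κ : ℝ, Real.exp (-(k * sc d lam)) ≤ κ → κ ≤ 1 →
          (∀ (E : ℝ) (u : (Fin d → ℤ) → ℂ), (E ≤ Em lam + κ ∨ Ep lam - κ ≤ E) → SqSummable u →
            (∀ y, H lam ω u y = (E : ℂ) * u y) →
              ‖u x‖ ^ 2 ≤ K * κ ^ ((d : ℝ) / 2) * ∑' y, ‖u y‖ ^ 2) ∧
          ∀ m : Measure ℝ, IsSpectralMeasureAt (H lam ω) x m →
            m.real (Set.Iic (Em lam + κ)) ≤ K * κ ^ ((d : ℝ) / 2) := by
  have hM : M d = Pool.Agent.R493.MS.Sun d := (Pool.Agent.R493.MS.Sun_eq d hd).symm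
  have hG : G d = Pool.Agent.Y661.ED.Gd d := rfl
  refine ⟨⟨Pool.Agent.R493.MS.Sun_intOn d hd, by
    rw [hM]; exact Pool.Agent.R493.MS.Sun_pos d hd⟩, fun L V => Pool.Agent.Y661.EX.ep V,
    fun μ => Pool.Agent.K3h27.EF.co d b μ, fun L V => Pool.Agent.Y661.EX.ep_taylor V, ?_, ?_, ?_⟩
  · intro μ _ hs hD
    obtain ⟨h0, h1, h2, h3, h4, h5⟩ := Pool.Agent.K3h27.EF.coefs d hd b hb μ hs hD
    refine ⟨h5, h0, h1, ?_, ?_, ?_⟩
    · rw [hG]; exact h2
    · rw [hG]; exact h3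
    · rw [hG, hM]; exact h4
  · have hp := Pool.Agent.Results.MP_562b47_mp.LocalizationToEdge.unif_prob b hb
    obtain ⟨h0, h1, h2, h3, h4, h5⟩ :=
      Pool.Agent.K3h27.EF.coefs d hd b hb (unif b) (unif_supp b) ⟨_, unif_dens b⟩
    have e2 := unif_cm b hb 2
    have e3 := unif_cm b hb 3
    have e4 := unif_cm b hb 4
    have hb' := hb.ne'
    refine ⟨hp, unif_supp b, unif_dens b, ?_, ?_, ?_, ?_⟩
    · beta_reduce; rw [h1]; exact unif_mean b hb
    · beta_reduce; rw [h2, hG]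
      change -(cm (unif b) 2 * _) = _
      rw [e2]
      push_cast
      field_simp
      ring
    · beta_reduce; rw [h3]
      change cm (unif b) 3 * _ = _
      rw [e3]
      push_cast
      ring
    · beta_reduce; rw [h4, hG, hM]
      change -(cm (unif b) 2 ^ 2 * _ + (cm (unif b) 4 - 3 * cm (unif b) 2 ^ 2) * _) = _
      rw [e2, e4]
      push_cast
      field_simp
      ring
  · intro D hD η hη hη1
    obtain ⟨k, K, hk, hK, h⟩ := Pool.Agent.K3h27.EF.edges d hd b hb D hD η hη hη1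
    refine ⟨k, K, hk, hK, ?_⟩
    intro μ _ hs hD'
    obtain ⟨Em, Ep, h1, h2⟩ := h μ hs hD'
    exact ⟨Em, Ep, h1, h2⟩

end Pool.Agent.Results.MP_562b47_mp.EdgeFourthOrder
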