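import Pool.Agent.Y663.Tr
import Pool.Agent.K3h4.AN.Es
import Pool.Agent.K3h4.AN.Sp

/-!
# Dimension two, uniform disorder: the effective band edges

For the Anderson model `Δ_ω = -Δ + ω` on `ℤ²` with iid `ω_j` uniform on `[-c, c]` and small `c` there
is an energy `E_* = -(c²/(6π)) log (1/c) + O(c² log^{3/4} (1/c))` such that (1) the spectrum at distance
at least `K c² log log (1/c)` outside `[E_*, 8 - E_*]` is localized; (2) for every `κ ≥ K c²` the states
of energy `≤ E_* + κ` or `≥ 8 - E_* - κ` put mass at most `K κ` on each site outside a random set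
of density at most `K exp(-κ/(K c²))`; (3) on tori of side up to `1/(K c)` the ground state is
extended, with energy `E_* + O(1/L²)`.
-/

set_option autoImplicit false

open scoped BigOperators ENNReal
open MeasureTheory

namespace Pool.Agent.Results.MP_562b47_mp.EdgeTwo

/-- the uniform law on `[-c, c]` -/
noncomputable def unif (c : ℝ) : Measure ℝ :=
  ENNReal.ofReal (1 / (2 * c)) • volume.restrict (Set.Icc (-c) c)

/-! ### The operator on `ℤ^d` -/

/-- `(Δ_ω u)(j) = -∑_{|n|=1} (u(j+n) - u(j)) + ω_j u(j)` -/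
noncomputable def H {d : ℕ} (ω : (Fin d → ℤ) → ℝ) (u : (Fin d → ℤ) → ℂ) (j : Fin d → ℤ) : ℂ :=
  -∑ i : Fin d, ((u (j + Pi.single i 1) - u j) + (u (j - Pi.single i 1) - u j)) + (ω j : ℂ) * u j

/-- square summable functions -/
def SqSummable {d : ℕ} (u : (Fin d → ℤ) → ℂ) : Prop := Summable fun x => ‖u x‖ ^ 2

/-- `m` is the spectral measure of the vector `g`: a finite measure whose Borel transform
`∫ (E - z)⁻¹ dm(E)` is `⟨g, (A - z)⁻¹ g⟩` for all non-real `z` -/
def IsSpectralMeasure {d : ℕ} (A : ((Fin d → ℤ) → ℂ) → (Fin d → ℤ) → ℂ) (g : (Fin d → ℤ) → ℂ)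
    (m : Measure ℝ) : Prop :=
  IsFiniteMeasure m ∧ ∀ z : ℂ, z.im ≠ 0 → ∃ u : (Fin d → ℤ) → ℂ, SqSummable u ∧
    (∀ x, A u x - z * u x = g x) ∧ ∫ E : ℝ, ((E : ℂ) - z)⁻¹ ∂m = ∑' x, (starRingEnd ℂ) (g x) * u x

/-- exponential localization of the operator `A` at the energies in `S`, with rate `r`:
every polynomially bounded solution of `A ψ = E ψ`, `E ∈ S`, decays exponentially with rate `r`, and
the spectral measures are pure point in `S` (carried there by a countable set) -/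
def Localized {d : ℕ} (A : ((Fin d → ℤ) → ℂ) → (Fin d → ℤ) → ℂ) (S : Set ℝ) (r : ℝ) : Prop :=
  (∀ E ∈ S, ∀ ψ : (Fin d → ℤ) → ℂ, (∃ (C : ℝ) (n : ℕ), ∀ x, ‖ψ x‖ ≤ C * (1 + ‖x‖) ^ n) →
    (∀ x, A ψ x = (E : ℂ) * ψ x) → ∃ C : ℝ, ∀ x, ‖ψ x‖ ≤ C * Real.exp (-(r * ‖x‖))) ∧
  ∃ N : Set ℝ, N.Countable ∧ ∀ (g : (Fin d → ℤ) → ℂ) (m : Measure ℝ), SqSummable g →
    IsSpectralMeasure A g m → m (S \ N) = 0

/-- `m` is the spectral measure of `δ_x` for the bounded self-adjoint operator `A`: the finite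
measure whose moments are `⟨δ_x, A^n δ_x⟩` -/
def IsSpectralMeasureAt {d : ℕ} (A : ((Fin d → ℤ) → ℂ) → (Fin d → ℤ) → ℂ) (x : Fin d → ℤ)
    (m : Measure ℝ) : Prop :=
  IsFiniteMeasure m ∧ ∀ n : ℕ, Integrable (fun E : ℝ => E ^ n) m ∧
    ((∫ E, E ^ n ∂m : ℝ) : ℂ) = A^[n] (Pi.single x 1) x

/-! ### The operator on a torus -/

/-- the discrete torus `(ℤ/L)^d` -/
abbrev T (d L : ℕ) : Type := Fin d → ZMod L

/-- `Δ_ω` on the torus -/
noncomputable def HT {d L : ℕ} (ω f : T d L → ℝ) (x : T d L) : ℝ :=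
  -∑ i : Fin d, ((f (x + Pi.single i 1) - f x) + (f (x - Pi.single i 1) - f x)) + ω x * f x

/-- `Δ_ω` on the torus has an eigenfunction `ψ` with `1 ≤ ψ ≤ 1 + η`, its eigenvalue `E₀`
differs from `Es` by at most `ε`, and the quadratic form of `Δ_ω - E₀` is at least `1/(2 d L²)` on the
orthogonal complement of `ψ`: `ψ` is the ground state, it is extended, and the ground state energy
is separated from the rest of the spectrum by a gap of the order of the gap of `-Δ` -/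
def ExtendedGroundState {d L : ℕ} [NeZero L] (η ε Es : ℝ) (ω : T d L → ℝ) : Prop :=
  ∃ (E₀ : ℝ) (ψ : T d L → ℝ), |E₀ - Es| ≤ ε ∧ (∀ x, 1 ≤ ψ x ∧ ψ x ≤ 1 + η) ∧
    (∀ x, HT ω ψ x = E₀ * ψ x) ∧
    ∀ f : T d L → ℝ, ∑ x, ψ x * f x = 0 →
      1 / (2 * (d : ℝ) * (L : ℝ) ^ 2) * ∑ x, f x ^ 2 ≤ ∑ x, f x * (HT ω f x - E₀ * f x)

/-! ### The normalised potential -/

theorem H_eq {d : ℕ} (ω : (Fin d → ℤ) → ℝ) :
    H ω = Pool.Agent.H4R2.LO.Hg (-1) (fun x => ω x + 2 * d) := Pool.Agent.Y663.Tr.H_eq ω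

theorem HT_eq {d L : ℕ} (c : ℝ) (V f : T d L → ℝ) (x : T d L) :
    HT (fun y => c * V y) f x = Pool.Agent.H4R2.AE.Hop c V f x := Pool.Agent.Y663.Tr.HT_eq c V f x

/-- the mean and the variance of the uniform law on `[-1, 1]` -/
theorem unif_moments : Pool.Agent.K3h4.AN.Sa.mn (Pool.Agent.Y663.Tr.unif 1) = 0 ∧
    Pool.Agent.K3h4.AN.Sa.vr (Pool.Agent.Y663.Tr.unif 1) = 1 / 3 := by
  have hph : ∀ t ∈ Set.Icc (-1 : ℝ) 1, Pool.Agent.K3h4.AN.Sa.ph t = t := by
    intro t ht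
    unfold Pool.Agent.K3h4.AN.Sa.ph
    rw [min_eq_right ht.2, max_eq_right ht.1]
  have h1 : Pool.Agent.K3h4.AN.Sa.mn (Pool.Agent.Y663.Tr.unif 1) = 0 := by
    unfold Pool.Agent.K3h4.AN.Sa.mn Pool.Agent.Y663.Tr.unif
    rw [integral_smul_measure, setIntegral_congr_fun measurableSet_Icc hph,
      integral_Icc_eq_integral_Ioc, ← intervalIntegral.integral_of_le (by norm_num), integral_id]
    norm_num
  refine ⟨h1, ?_⟩
  unfold Pool.Agent.K3h4.AN.Sa.vr
  rw [h1]
  simp only [sub_zero]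
  unfold Pool.Agent.Y663.Tr.unif
  rw [integral_smul_measure, setIntegral_congr_fun measurableSet_Icc (g := fun t : ℝ => t ^ 2)
      (fun t ht => by rw [hph t ht]),
    integral_Icc_eq_integral_Ioc, ← intervalIntegral.integral_of_le (by norm_num), integral_pow]
  norm_num

open Pool.Agent.H541R3.AND.Trans Pool.Agent.H541R3.AND.Deloc in
/-- **Theorem.** For the uniform law on `[-c, c]` in dimension two and small `c` there is an energy `Es`
(the effective band is `[Es, 8 - Es]`) such that: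
(1) `Es = -(c²/(6π)) log (1/c) + O(c² log^{3/4} (1/c))`;
(2) on every torus of side `L ≤ 1/(K c)`, with probability at least `1 - K exp(-1/(K (c L)²))`,
the ground state of `Δ_ω` is extended (`1 ≤ ψ ≤ 1 + η`), has energy `Es + O(1/L²)` and a spectral gap
of order `1/L²` above it;
(3) for every `κ ≥ K c² log log (1/c)` almost surely exponential localization on `ℤ²`, with rate
`√κ / (K log (2/(κ c)))`, at all energies at distance at least `κ` from `[Es, 8 - Es]`;
(4) for every `κ ≥ K c²` there is a translation covariant random set `Bad` of sites, of density at most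
`K exp(-κ/(K c²))`, such that every `ℓ²` eigenfunction on `ℤ²` with energy at most `Es + κ`
or at least `8 - Es - κ` has at most the fraction `K κ` of its mass at each site outside `Bad`, and
the spectral measure of `δ_x`, `x` outside `Bad`, gives mass at most `K κ` to
`(-∞, Es + κ]` and to `[8 - Es - κ, ∞)`. -/
theorem result (η : ℝ) (hη : 0 < η) (hη' : η ≤ 1) :
    ∃ K : ℝ, 1 ≤ K ∧ ∀ c : ℝ, 0 < c → K * c ≤ 1 → ∃ Es : ℝ,
      |Es + c ^ 2 / (6 * Real.pi) * Real.log (1 / c)| ≤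
        K * c ^ 2 * Real.log (1 / c) ^ ((3 : ℝ) / 4) ∧
      (∀ (L : ℕ) [NeZero L], K * (c * L) ≤ 1 →
        ∃ G : Set (T 2 L → ℝ), MeasurableSet G ∧
          1 - K * Real.exp (-(1 / (K * (c * L) ^ 2))) ≤
            (Measure.pi fun _ : T 2 L => unif c).real G ∧
          ∀ ω ∈ G, ExtendedGroundState η (K / (L : ℝ) ^ 2) Es ω) ∧
      (∀ κ : ℝ, K * (c ^ 2 * Real.log (Real.log (1 / c))) ≤ κ → κ ≤ 1 →
        ∀ᵐ ω ∂(Measure.infinitePi fun _ : Fin 2 → ℤ => unif c),
          Localized (H ω) {E | E ≤ Es - κ ∨ 8 - Es + κ ≤ E}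
            (Real.sqrt κ / (K * Real.log (2 / (κ * c))))) ∧
      ∀ κ : ℝ, K * c ^ 2 ≤ κ → κ ≤ 1 → ∃ Bad : ((Fin 2 → ℤ) → ℝ) → Set (Fin 2 → ℤ),
        (∀ x, MeasurableSet {ω | x ∈ Bad ω}) ∧
        (∀ ω a x, x ∈ Bad (fun y => ω (y + a)) ↔ x + a ∈ Bad ω) ∧
        (∀ x, (Measure.infinitePi fun _ : Fin 2 → ℤ => unif c).real {ω | x ∈ Bad ω} ≤
          K * Real.exp (-(κ / (K * c ^ 2)))) ∧
        ∀ ω x, x ∉ Bad ω →
          (∀ (E : ℝ) (u : (Fin 2 → ℤ) → ℂ), (E ≤ Es + κ ∨ 8 - Es - κ ≤ E) → SqSummable u →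
            (∀ y, H ω u y = (E : ℂ) * u y) → ‖u x‖ ^ 2 ≤ K * κ * ∑' y, ‖u y‖ ^ 2) ∧
          ∀ m : Measure ℝ, IsSpectralMeasureAt (H ω) x m →
            m.real (Set.Iic (Es + κ)) ≤ K * κ ∧ m.real (Set.Ici (8 - Es - κ)) ≤ K * κ := by
  obtain ⟨K0, hK0, HS⟩ := Pool.Agent.K3h4.AN.F2.fin2 (1 + 4 * 1 ^ 2) (by norm_num) η hη hη'
  obtain ⟨C, hC, HD⟩ := Pool.Agent.K3h4.AN.G2.main2 K0 (by linarith)
  obtain ⟨C1, hC1, HE⟩ := Pool.Agent.K3h4.AN.Es.es2 K0 hK0
  have hK00 : 0 < K0 := by linarith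
  obtain ⟨K, hK⟩ : ∃ z : ℝ, z = 64 * K0 ^ 2 + 8 * K0 + C + C1 + 2 := ⟨_, rfl⟩
  have hKsq : 0 < K0 ^ 2 := by positivity
  have hK64 : 64 * K0 ^ 2 ≤ K := by linarith
  have hKK0 : K0 ≤ K := by linarith
  have hKC : C ≤ K := by linarith
  have hKC1 : C1 ≤ K := by linarith
  have hK1 : 1 ≤ K := by linarith
  have hKpos : 0 < K := by linarith
  refine ⟨K, hK1, ?_⟩
  intro c hc hcK
  have hP1 : IsProbabilityMeasure (Pool.Agent.Y663.Tr.unif 1) :=
    Pool.Agent.Y663.Tr.unif_prob 1 one_pos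
  have hPc : IsProbabilityMeasure (unif c) := Pool.Agent.Y663.Tr.unif_prob c hc
  have hcK0 : K0 * c ≤ 1 := by
    refine le_trans ?_ hcK
    gcongr
  have hcC1 : C1 * c ≤ 1 := by
    refine le_trans ?_ hcK
    gcongr
  have hc1 : c ≤ 1 := by nlinarith
  have hc2 : 0 < c ^ 2 := by positivity
  obtain ⟨Es, hEs, A1, A2⟩ := HS (Pool.Agent.Y663.Tr.unif 1) Pool.Agent.Y663.Tr.unif_supp
    Pool.Agent.Y663.Tr.unif_reg c hc hcK0
  have hasym := HE (Pool.Agent.Y663.Tr.unif 1) Pool.Agent.Y663.Tr.unif_supp c hc hcC1 η Es hη' A1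
  obtain ⟨hmn, hvr⟩ := unif_moments
  have hlogc : 0 ≤ Real.log (1 / c) := Real.log_nonneg (by rw [le_div_iff₀ hc]; linarith)
  have hexpK : ∀ y : ℝ, 0 < y → K0 * Real.exp (-(1 / (K0 * y))) ≤ K * Real.exp (-(1 / (K * y))) := by
    intro y hy
    have h1 : Real.exp (-(1 / (K0 * y))) ≤ Real.exp (-(1 / (K * y))) := by
      refine Real.exp_le_exp.2 (neg_le_neg ?_)
      apply one_div_le_one_div_of_le (by positivity)
      gcongr
    exact mul_le_mul hKK0 h1 (Real.exp_pos _).le hKpos.le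
  refine ⟨Es, ?_, fun L _ hL => ?_, fun κ hκ hκ1 => ?_, fun κ hκ hκ1 => ?_⟩
  · rw [hmn, hvr] at hasym
    have e : Es - (c * 0 - 1 / 3 / (2 * Real.pi) * c ^ 2 * Real.log (1 / c)) =
        Es + c ^ 2 / (6 * Real.pi) * Real.log (1 / c) := by
      have := Real.pi_pos
      field_simp
      ring
    rw [e] at hasym
    refine hasym.trans ?_
    gcongr
  · have hLpos : (0 : ℝ) < L := Pool.Agent.H4R2.AE.Core.L_pos (L := L)
    obtain ⟨G, hG, hP, hflat⟩ := A1 L (le_trans (by gcongr) hL)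
    obtain ⟨G', hG', hP', hV⟩ := Pool.Agent.Y663.Tr.transportT 2 L c hc G hG
    have := hexpK ((c * L) ^ 2) (by positivity)
    refine ⟨G', hG', ?_, fun ω hω => ?_⟩
    · have e : (Measure.pi fun _ : T 2 L => unif c).real G' =
          (Measure.pi fun _ : T 2 L => Pool.Agent.Y663.Tr.unif 1).real G := hP'
      rw [e]
      linarith
    · obtain ⟨V, hVG, rfl⟩ := hV ω hω
      obtain ⟨E0, ψ, h1, h2, h3, h4⟩ := hflat V hVG
      refine ⟨E0, ψ, h1.trans ?_, h2, fun x => ?_, fun f hf => ?_⟩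
      · exact div_le_div_of_nonneg_right hKK0 (by positivity)
      · rw [← h3 x, ← HT_eq]
      · simp only [HT_eq]
        exact h4 f hf
  · -- localization
    have hlog1 : 1 < Real.log (1 / c) := by
      rw [Real.lt_log_iff_exp_lt (by positivity), lt_div_iff₀ hc]
      have h1 : Real.exp 1 < 3 := lt_trans Real.exp_one_lt_d9 (by norm_num)
      have h2 : 8 * c ≤ 1 := by
        have h3 : (8 : ℝ) ≤ K := by linarith
        have : 8 * c ≤ K * c := by gcongr
        linarith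
      nlinarith
    have hll : 0 < Real.log (Real.log (1 / c)) := Real.log_pos hlog1
    have hκ' : K0 * (c ^ 2 * Real.log (Real.log (1 / c))) ≤ κ := by
      refine le_trans ?_ hκ
      gcongr
    have hκ0 : 0 < κ := lt_of_lt_of_le (by positivity) hκ
    have hbase : 2 ≤ 2 / (κ * c) := by
      rw [le_div_iff₀ (by positivity)]
      have : κ * c ≤ 1 := by nlinarith
      linarith
    have hX : 0 < Real.log (2 / (κ * c)) := Real.log_pos (by linarith)
    have hsκ : 0 < Real.sqrt κ := Real.sqrt_pos.2 hκ0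
    have hrate : Real.sqrt κ / (K * Real.log (2 / (κ * c))) ≤
        Real.sqrt κ / (K0 * Real.log (2 / (κ * c))) := by
      gcongr
    have h1 := A2 κ hκ' hκ1
    have h2 := Pool.Agent.Y663.Tr.transport 2 c hc (Es - κ)
      (Real.sqrt κ / (K * Real.log (2 / (κ * c)))) (by positivity) (by
        filter_upwards [h1] with ω hω
        have e : Es - κ - 2 * ((2 : ℕ) : ℝ) = Es - 2 * ((2 : ℕ) : ℝ) - κ := by ring
        rw [e]
        exact Pool.Agent.H4R2.LO.Main.dec_mono _ _ _ _ _ _ hω le_rfl hrate)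
    have h2' : ∀ᵐ ω ∂(Measure.infinitePi fun _ : Fin 2 → ℤ => unif c),
        Localized (H ω) {E : ℝ | E ≤ Es - κ ∨ 4 * ((2 : ℕ) : ℝ) - (Es - κ) ≤ E}
          (Real.sqrt κ / (K * Real.log (2 / (κ * c)))) := h2
    filter_upwards [h2'] with ω hω
    have e : {E : ℝ | E ≤ Es - κ ∨ 8 - Es + κ ≤ E} =
        {E | E ≤ Es - κ ∨ 4 * ((2 : ℕ) : ℝ) - (Es - κ) ≤ E} := by
      ext E
      constructor
      · rintro (h | h)
        · exact Or.inl h
        · refine Or.inr ?_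
          push_cast
          linarith
      · rintro (h | h)
        · exact Or.inl h
        · refine Or.inr ?_
          push_cast at h
          linarith
    rw [e]
    exact hω
  · -- the spread-out states
    have hκ0 : 0 < κ := lt_of_lt_of_le (by positivity) hκ
    have hs0 : 0 < Real.sqrt κ := Real.sqrt_pos.2 hκ0
    have hs1 : Real.sqrt κ ≤ 1 := Real.sqrt_le_one.2 hκ1
    have hss : Real.sqrt κ ^ 2 = κ := Real.sq_sqrt hκ0.le
    have hsl : 8 * K0 * c ≤ Real.sqrt κ := by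
      apply Real.le_sqrt_of_sq_le
      calc (8 * K0 * c) ^ 2 = 64 * K0 ^ 2 * c ^ 2 := by ring
        _ ≤ K * c ^ 2 := by gcongr
        _ ≤ κ := hκ
    obtain ⟨h, hh⟩ : ∃ n : ℕ, n = ⌈2 / Real.sqrt κ⌉₊ := ⟨_, rfl⟩
    have hge : 2 / Real.sqrt κ ≤ h := by rw [hh]; exact Nat.le_ceil _
    have hlt : (h : ℝ) < 2 / Real.sqrt κ + 1 := by
      rw [hh]; exact Nat.ceil_lt_add_one (by positivity)
    have hinv : 1 ≤ 1 / Real.sqrt κ := by rw [le_div_iff₀ hs0]; linarith
    have h2inv : 2 / Real.sqrt κ = 2 * (1 / Real.sqrt κ) := by ring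
    have hpos' : (0 : ℝ) < h := by linarith
    have hpos : 0 < h := by exact_mod_cast hpos'
    have h4h : 4 / (h : ℝ) ^ 2 ≤ κ := by
      rw [div_le_iff₀ (by positivity)]
      rw [div_le_iff₀ hs0] at hge
      have h1 : 2 ^ 2 ≤ ((h : ℝ) * Real.sqrt κ) ^ 2 := pow_le_pow_left₀ (by norm_num) hge 2
      rw [mul_pow, hss] at h1
      linarith
    have hLe : ((2 * h + 1 : ℕ) : ℝ) ≤ 8 / Real.sqrt κ := by
      push_cast
      have : 8 / Real.sqrt κ = 8 * (1 / Real.sqrt κ) := by ring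
      linarith
    have hLpos : (0 : ℝ) < ((2 * h + 1 : ℕ) : ℝ) := by positivity
    have hyL : c * ((2 * h + 1 : ℕ) : ℝ) ≤ 8 * c / Real.sqrt κ := by
      calc c * ((2 * h + 1 : ℕ) : ℝ) ≤ c * (8 / Real.sqrt κ) := by gcongr
        _ = _ := by ring
    have hL : K0 * (c * ((2 * h + 1 : ℕ) : ℝ)) ≤ 1 := by
      calc K0 * (c * ((2 * h + 1 : ℕ) : ℝ)) ≤ K0 * (8 * c / Real.sqrt κ) := by gcongr
        _ = (8 * K0 * c) / Real.sqrt κ := by ring
        _ ≤ 1 := by rw [div_le_one hs0]; exact hsl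
    have hsq : (c * ((2 * h + 1 : ℕ) : ℝ)) ^ 2 ≤ 64 * c ^ 2 / κ := by
      calc (c * ((2 * h + 1 : ℕ) : ℝ)) ^ 2 ≤ (8 * c / Real.sqrt κ) ^ 2 := by gcongr
        _ = 64 * c ^ 2 / κ := by rw [div_pow, hss]; ring
    have hpr : K0 * Real.exp (-(1 / (K0 * (c * ((2 * h + 1 : ℕ) : ℝ)) ^ 2))) ≤
        K / 2 * Real.exp (-(κ / (K * c ^ 2))) := by
      have h1 : Real.exp (-(1 / (K0 * (c * ((2 * h + 1 : ℕ) : ℝ)) ^ 2))) ≤
          Real.exp (-(κ / (K * c ^ 2))) := by
        refine Real.exp_le_exp.2 (neg_le_neg ?_)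
        rw [div_le_div_iff₀ (by positivity) (by positivity)]
        have h64 : 64 * K0 ≤ K := by nlinarith
        calc κ * (K0 * (c * ((2 * h + 1 : ℕ) : ℝ)) ^ 2) ≤ κ * (K0 * (64 * c ^ 2 / κ)) := by gcongr
          _ = 64 * K0 * c ^ 2 := by field_simp
          _ ≤ 1 * (K * c ^ 2) := by rw [one_mul]; gcongr
      refine mul_le_mul ?_ h1 (Real.exp_pos _).le (by linarith)
      linarith
    obtain ⟨G, hG, hP, hf⟩ := A1 (2 * h + 1) hL
    have hm1 : ∀ x : Fin 2 → ℤ, Measurable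
        (fun ω : (Fin 2 → ℤ) → ℝ => VT h (fun y => ω y / c) x) := by
      intro x
      unfold VT
      fun_prop
    have hm2 : ∀ x : Fin 2 → ℤ, Measurable
        (fun ω : (Fin 2 → ℤ) → ℝ => VT h (fun y => -(ω y / c)) x) := by
      intro x
      unfold VT
      fun_prop
    have hlaw : (Measure.infinitePi fun _ : Fin 2 → ℤ => Pool.Agent.Y663.Tr.unif 1).map
        (fun ω x => c * ω x) = Measure.infinitePi fun _ : Fin 2 → ℤ => unif c :=
      Pool.Agent.Y663.Tr.law_map 2 (Pool.Agent.Y663.Tr.unif 1) (unif c) (fun t => c * t)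
        (by fun_prop) (Pool.Agent.Y663.Tr.unif_scale c hc)
    have hlawn : (Measure.infinitePi fun _ : Fin 2 → ℤ => Pool.Agent.Y663.Tr.unif 1).map
        (fun ω x => -ω x) =
        Measure.infinitePi fun _ : Fin 2 → ℤ => Pool.Agent.Y663.Tr.unif 1 :=
      Pool.Agent.Y663.Tr.law_map 2 (Pool.Agent.Y663.Tr.unif 1) (Pool.Agent.Y663.Tr.unif 1)
        (fun t => -t) (by fun_prop) (Pool.Agent.Y663.Tr.unif_neg 1)
    have hVm : ∀ x : Fin 2 → ℤ, Measurable (fun ω : (Fin 2 → ℤ) → ℝ => VT h ω x) := by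
      intro x
      unfold VT
      fun_prop
    refine ⟨fun ω => {x | VT h (fun y => ω y / c) x ∉ G ∨ VT h (fun y => -(ω y / c)) x ∉ G},
      fun x => ?_, fun ω a x => ?_, fun x => ?_, fun ω x hx => ?_⟩
    · exact ((hm1 x) hG.compl).union ((hm2 x) hG.compl)
    · have e1 : VT h (fun y => ω (y + a) / c) x = VT h (fun y => ω y / c) (x + a) := by
        funext t
        unfold VT
        show ω (x + lift t + a) / c = ω (x + a + lift t) / c
        congr 2
        abel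
      have e2 : VT h (fun y => -(ω (y + a) / c)) x = VT h (fun y => -(ω y / c)) (x + a) := by
        funext t
        unfold VT
        show -(ω (x + lift t + a) / c) = -(ω (x + a + lift t) / c)
        congr 3
        abel
      show VT h (fun y => ω (y + a) / c) x ∉ G ∨ VT h (fun y => -(ω (y + a) / c)) x ∉ G ↔
        VT h (fun y => ω y / c) (x + a) ∉ G ∨ VT h (fun y => -(ω y / c)) (x + a) ∉ G
      rw [e1, e2]
    · have hbad : (Measure.infinitePi fun _ : Fin 2 → ℤ => Pool.Agent.Y663.Tr.unif 1).real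
          {ω | VT h ω x ∉ G} ≤ K / 2 * Real.exp (-(κ / (K * c ^ 2))) := by
        rw [Pool.Agent.K3h4.AN.Sp.bad_prob (Pool.Agent.Y663.Tr.unif 1) h G hG x,
          probReal_compl_eq_one_sub hG]
        linarith
      have p1 : (Measure.infinitePi fun _ : Fin 2 → ℤ => unif c).real
          {ω | VT h (fun y => ω y / c) x ∉ G} ≤ K / 2 * Real.exp (-(κ / (K * c ^ 2))) := by
        have ms : MeasurableSet {ω : (Fin 2 → ℤ) → ℝ | VT h (fun y => ω y / c) x ∉ G} :=
          (hm1 x) hG.compl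
        rw [← hlaw, map_measureReal_apply (by fun_prop) ms]
        have e : (fun (ω : (Fin 2 → ℤ) → ℝ) x => c * ω x) ⁻¹'
            {ω | VT h (fun y => ω y / c) x ∉ G} = {ω | VT h ω x ∉ G} := by
          ext ω
          simp only [Set.mem_preimage, Set.mem_ofPred_eq]
          have : (fun y => c * ω y / c) = ω := by
            funext y
            field_simp
          rw [this]
        rw [e]
        exact hbad
      have p2 : (Measure.infinitePi fun _ : Fin 2 → ℤ => unif c).real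
          {ω | VT h (fun y => -(ω y / c)) x ∉ G} ≤ K / 2 * Real.exp (-(κ / (K * c ^ 2))) := by
        have ms : MeasurableSet {ω : (Fin 2 → ℤ) → ℝ | VT h (fun y => -(ω y / c)) x ∉ G} :=
          (hm2 x) hG.compl
        have ms2 : MeasurableSet {ω : (Fin 2 → ℤ) → ℝ | VT h ω x ∉ G} := (hVm x) hG.compl
        rw [← hlaw, map_measureReal_apply (by fun_prop) ms]
        have e : (fun (ω : (Fin 2 → ℤ) → ℝ) x => c * ω x) ⁻¹'
            {ω | VT h (fun y => -(ω y / c)) x ∉ G} =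
            (fun (ω : (Fin 2 → ℤ) → ℝ) x => -ω x) ⁻¹' {ω | VT h ω x ∉ G} := by
          ext ω
          simp only [Set.mem_preimage, Set.mem_ofPred_eq]
          have : (fun y => -(c * ω y / c)) = fun y => -ω y := by
            funext y
            field_simp
          rw [this]
        rw [e, ← map_measureReal_apply (by fun_prop) ms2, hlawn]
        exact hbad
      have e : {ω : (Fin 2 → ℤ) → ℝ | x ∈ {x | VT h (fun y => ω y / c) x ∉ G ∨
          VT h (fun y => -(ω y / c)) x ∉ G}} =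
          {ω | VT h (fun y => ω y / c) x ∉ G} ∪ {ω | VT h (fun y => -(ω y / c)) x ∉ G} := rfl
      rw [e]
      refine (measureReal_union_le _ _).trans ?_
      linarith
    · have hx' : ¬ (VT h (fun y => ω y / c) x ∉ G ∨ VT h (fun y => -(ω y / c)) x ∉ G) := hx
      push Not at hx'
      obtain ⟨hx1, hx2⟩ := hx'
      have good1 : GoodAt h c K0 Es (fun y => ω y / c) x := by
        obtain ⟨E0, ψ, h1, h2, h3, -⟩ := hf _ hx1
        exact ⟨E0, ψ, h1, fun y => ⟨(h2 y).1, (h2 y).2.trans (by linarith)⟩, h3⟩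
      have good2 : GoodAt h c K0 Es (fun y => -(ω y / c)) x := by
        obtain ⟨E0, ψ, h1, h2, h3, -⟩ := hf _ hx2
        exact ⟨E0, ψ, h1, fun y => ⟨(h2 y).1, (h2 y).2.trans (by linarith)⟩, h3⟩
      obtain ⟨D1, D2⟩ := HD h c Es (fun y => ω y / c) x hpos good1 κ h4h hκ1
      obtain ⟨D3, D4⟩ := HD h c Es (fun y => -(ω y / c)) x hpos good2 κ h4h hκ1
      obtain ⟨T1, T2⟩ := Pool.Agent.K3h4.AN.Sp.two_sided (C * κ) c (Es + κ) (Es + κ)
        (fun y => ω y / c) x D1 D2 D3 D4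
      have hH : Pool.Agent.K3h4.AN.Sp.H c (fun y => ω y / c) = H ω := by
        funext u y
        unfold Pool.Agent.K3h4.AN.Sp.H H
        have : c * (ω y / c) = ω y := by field_simp
        rw [this]
      rw [hH] at T1 T2
      have hmono2 : C * κ ≤ K * κ := mul_le_mul_of_nonneg_right hKC hκ0.le
      have e8 : 4 * ((2 : ℕ) : ℝ) - (Es + κ) = 8 - Es - κ := by push_cast; ring
      rw [e8] at T1 T2
      refine ⟨fun E u hE hu hEu => ?_, fun m hm => ?_⟩
      · have hS0 : 0 ≤ ∑' y, ‖u y‖ ^ 2 := tsum_nonneg fun y => by positivity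
        exact (T1 E u hE hu hEu).trans (mul_le_mul_of_nonneg_right hmono2 hS0)
      · obtain ⟨m1, m2⟩ := T2 m hm
        exact ⟨m1.trans hmono2, m2.trans hmono2⟩

end Pool.Agent.Results.MP_562b47_mp.EdgeTwo
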