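import Pool.Agent.K3h29.LH.StrongFin

/-!
Absolutely continuous spectrum at strong disorder. For single site laws with a density bounded
below on an interval (for instance the uniform law) and `c` large, the operator `-Δ + A + c ω` on
`ℓ²(ℤ^d)`, where `A` is translation invariant, hops only along one line `ℤ v` with amplitudes at most
`ε / (1 + |n|) ^ α`, `α < 1 / 2`, and has norm at most `ε c`, has almost surely purely absolutely
continuous spectrum in the interior of the scaled interval.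
-/

namespace Pool.Agent.Results.MP_562b47_mp.StrongDisorderHopping

open MeasureTheory

noncomputable section

/-- `(-Δ + A + c ω) u (x)`, where `(A u)(x) = ∑_n a_n u(x - n v)` hops along the line `ℤ v`. -/
def H (a : ℤ → ℝ) {d : ℕ} (v : Fin d → ℤ) (c : ℝ) (ω : (Fin d → ℤ) → ℝ)
    (u : (Fin d → ℤ) → ℂ) (x : Fin d → ℤ) : ℂ :=
  (∑ i : Fin d, (2 * u x - u (x + Pi.single i 1) - u (x - Pi.single i 1)))
    + (∑' n : ℤ, (a n : ℂ) * u (x - n • v)) + ((c * ω x : ℝ) : ℂ) * u x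

/-- `u` is square summable and `(H - z) u = δ_x`, i.e. `u = (H - z)⁻¹ δ_x`. -/
def IsGreen (a : ℤ → ℝ) {d : ℕ} (v : Fin d → ℤ) (c : ℝ) (ω : (Fin d → ℤ) → ℝ) (z : ℂ)
    (x : Fin d → ℤ) (u : (Fin d → ℤ) → ℂ) : Prop :=
  Summable (fun y => ‖u y‖ ^ 2) ∧ ∀ y, H a v c ω u y - z * u y = if y = x then 1 else 0

/-- Purely absolutely continuous spectrum filling the interval `(a₁, a₂)`: for every site `x` the
spectral measure `μ` of `δ_x`, i.e. the finite measure with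
`⟨δ_x, (H - z)⁻¹ δ_x⟩ = ∫ dμ(E) / (E - z)`, has on `(a₁, a₂)` a density `h`, positive almost
everywhere there. -/
def ACOn (a : ℤ → ℝ) {d : ℕ} (v : Fin d → ℤ) (c : ℝ) (ω : (Fin d → ℤ) → ℝ) (a₁ a₂ : ℝ) :
    Prop :=
  ∀ x : Fin d → ℤ, ∃ (μ : Measure ℝ) (h : ℝ → ℝ), IsFiniteMeasure μ ∧
    (∀ z : ℂ, 0 < z.im → (∃ u, IsGreen a v c ω z x u) ∧
      ∀ u, IsGreen a v c ω z x u → u x = ∫ E : ℝ, 1 / ((E : ℂ) - z) ∂μ) ∧
    Measurable h ∧ (∀ᵐ E ∂(volume.restrict (Set.Ioo a₁ a₂)), 0 < h E) ∧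
    μ.restrict (Set.Ioo a₁ a₂)
      = (volume.restrict (Set.Ioo a₁ a₂)).withDensity fun E => ENNReal.ofReal (h E)

/-- Let `ν` be a probability law on `ℝ` with `ν ≥ κ · Lebesgue` on an interval `[A, B]`, `κ > 0` (for
instance the uniform law on `[-1, 1]`), and let `A < A' < B' < B`. For every `d ≥ 1`, `v ≠ 0` in
`ℤ^d`, `ε > 0` and `α < 1 / 2` there is `c₀ > 0` such that for every `c ≥ c₀` there is an even real
sequence `a_n` with `|a_n| ≤ ε / (1 + |n|) ^ α`, the Fourier coefficients of a continuous function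
`β` on the circle with `|β| ≤ ε c`, such that for `ω` i.i.d. with law `ν` the spectrum of
`-Δ + A + c ω` in `(c A', c B')`, `(A u)(x) = ∑_n a_n u(x - n v)`, is almost surely purely absolutely
continuous, and it fills this interval. -/
theorem result (d : ℕ) (hd : 0 < d) (v : Fin d → ℤ) (hv : v ≠ 0) (A A' B' B κ : ℝ)
    (h1 : A < A') (h2 : A' < B') (h3 : B' < B) (hκ : 0 < κ) (ν : Measure ℝ)
    [IsProbabilityMeasure ν] (hν : ENNReal.ofReal κ • volume.restrict (Set.Icc A B) ≤ ν)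
    (ε : ℝ) (hε : 0 < ε) (α : ℝ) (hα : α < 1 / 2) :
    ∃ c₀ : ℝ, 0 < c₀ ∧ ∀ c : ℝ, c₀ ≤ c →
    ∃ (β : C(UnitAddCircle, ℝ)) (a : ℤ → ℝ), (∀ t, |β t| ≤ ε * c) ∧
    (∀ n, fourierCoeff (fun t : UnitAddCircle => ((β t : ℝ) : ℂ)) n = a n) ∧
    (∀ n, a (-n) = a n) ∧ (∀ n, |a n| ≤ ε / (1 + |(n : ℝ)|) ^ α) ∧
      ∀ᵐ ω ∂(Measure.infinitePi fun _ : Fin d → ℤ => ν), ACOn a v c ω (c * A') (c * B') := by
  obtain ⟨c₀, hc₀, hm⟩ := K3h29.LH.StrongFin.main d hd v hv hκ h1 h2 h3 ν hν hε hα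
  refine ⟨c₀, hc₀, fun c hc => ?_⟩
  obtain ⟨β, k1, k2, k3, k4⟩ := hm c hc
  set a : ℤ → ℝ := fun n => (fourierCoeff (K3h29.LH.Line.cx β) n).re with ha
  have ha1 : ∀ n, fourierCoeff (K3h29.LH.Line.cx β) n = a n := K3h29.LH.Line.fc_real β k1
  refine ⟨β, a, k2, ha1, fun n => ?_, fun n => ?_, ?_⟩
  · rw [ha]
    simp only
    rw [K3h29.LH.Line.fc_neg β k1]
  · have h5 := k3 n
    rwa [ha1, Complex.norm_real, Real.norm_eq_abs] at h5
  · filter_upwards [k4] with ω hω x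
    let Bb : C(K3h29.LH.Tor d, ℝ) :=
      ⟨fun k => β (K3h29.LH.Line.ln v k), β.continuous.comp (K3h29.LH.Line.ln_cont v)⟩
    obtain ⟨μ, g, g1, g2, g3, g4, g5⟩ := hω Bb (fun k => rfl) x
    refine ⟨μ, g, g1, fun z hz => ?_, g3, g4, g5⟩
    have e : ∀ u, W792.LL.Sol (W792.LL.hopK (W792.LL.lap d + Bb)) c ω z x u
        ↔ IsGreen a v c ω z x u := by
      intro u
      rw [W792.WA.Br.sol_iff Bb c ω z x u]
      refine and_congr_right fun _ => forall_congr' fun y => ?_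
      rw [K3h29.LH.LineFin.line_sum v hv β a ha1 Bb (fun k => rfl)]
      rfl
    obtain ⟨⟨w, hw⟩, h6⟩ := g2 z hz
    exact ⟨⟨w, (e w).1 hw⟩, fun u hu => h6 u ((e u).2 hu)⟩

end

end Pool.Agent.Results.MP_562b47_mp.StrongDisorderHopping
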